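import Mathlib

/-! Subset sums of a random lacunary set have no sharp density law. -/

set_option autoImplicit false

namespace Pool.Agent.Results.MP_78f804_pr.NoSharpDensity

open Filter Topology MeasureTheory ProbabilityTheory
open scoped ENNReal

/-- the random set: the positive integers `i` whose event `A i` occurs -/
def rset {Ω : Type*} (A : ℕ → Set Ω) (ω : Ω) : Set ℕ := {i | 1 ≤ i ∧ ω ∈ A i}

/-- the set of all sums over finite nonempty subsets -/
def subsetSums (B : Set ℕ) : Set ℕ := {s | ∃ F : Finset ℕ, F.Nonempty ∧ (F : Set ℕ) ⊆ B ∧ s = ∑ a ∈ F, a}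

/-- the number of subset sums in `{1, ..., n}` -/
noncomputable def cnt (B : Set ℕ) (n : ℕ) : ℕ := (subsetSums B ∩ Set.Icc 1 n).ncard

section det

/-- if `B` has no element in `(n, 16 n]` and the sum of its elements up to `n` is at most `8 n`,
then no subset sum lies in `(8 n, 16 n]` -/
lemma cnt_eq {B : Set ℕ} {n : ℕ} (h1 : ∀ j ∈ Finset.Ioc n (16 * n), j ∉ B)
    (F0 : Finset ℕ) (hF0 : ∀ j, j ∈ B → j ≤ n → j ∈ F0) (hsum : ∑ a ∈ F0, a ≤ 8 * n) :
    cnt B (16 * n) = cnt B (8 * n) := by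
  unfold cnt
  congr 1
  ext s
  constructor
  · rintro ⟨⟨F, hF, hFB, rfl⟩, h2⟩
    refine ⟨⟨F, hF, hFB, rfl⟩, h2.1, ?_⟩
    refine le_trans ?_ hsum
    apply Finset.sum_le_sum_of_subset
    intro a ha
    have h3 : a ≤ 16 * n := by
      refine le_trans ?_ h2.2
      exact Finset.single_le_sum (f := fun a => a) (fun _ _ => Nat.zero_le _) ha
    have h4 : a ≤ n := by
      by_contra hcon
      exact h1 a (Finset.mem_Ioc.2 ⟨by omega, h3⟩) (hFB ha)
    exact hF0 a (hFB ha) h4
  · rintro ⟨h3, h4⟩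
    exact ⟨h3, h4.1, h4.2.trans (by omega)⟩

lemma no_limit {f : ℕ → ℕ} (h : ∃ᶠ n in atTop, f (16 * n) = f (8 * n)) (C : ℝ) (hC : 0 < C) :
    ¬ Tendsto (fun n : ℕ => √(Real.log n) * (f n : ℝ) / n) atTop (𝓝 C) := by
  intro hlim
  have t1 : Tendsto (fun n : ℕ => 8 * n) atTop atTop :=
    tendsto_id.const_mul_atTop' (by norm_num)
  have t2 : Tendsto (fun n : ℕ => 16 * n) atTop atTop :=
    tendsto_id.const_mul_atTop' (by norm_num)
  have h1 := hlim.comp t1
  have h2 := hlim.comp t2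
  have h3 := h2.sub (h1.const_mul (3 / 4))
  have h4 : (0 : ℝ) < C - 3 / 4 * C := by linarith
  have h5 := h3.eventually (lt_mem_nhds h4)
  obtain ⟨n, hn1, hn2, hn3⟩ := (h.and_eventually (h5.and (eventually_ge_atTop 1))).exists
  simp only [Function.comp_apply] at hn2
  rw [hn1] at hn2
  have hn0 : (0 : ℝ) < n := by exact_mod_cast hn3
  have hlog : √(Real.log ((16 * n : ℕ) : ℝ)) ≤ 3 / 2 * √(Real.log ((8 * n : ℕ) : ℝ)) := by
    have h8 : (0 : ℝ) ≤ Real.log ((8 * n : ℕ) : ℝ) := Real.log_natCast_nonneg _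
    have e1 : (3 / 2 : ℝ) * √(Real.log ((8 * n : ℕ) : ℝ))
        = √((9 / 4) * Real.log ((8 * n : ℕ) : ℝ)) := by
      rw [Real.sqrt_mul (by norm_num), show (9 / 4 : ℝ) = (3 / 2) ^ 2 by norm_num,
        Real.sqrt_sq (by norm_num)]
    rw [e1]
    apply Real.sqrt_le_sqrt
    have e2 : Real.log ((16 * n : ℕ) : ℝ) = Real.log 2 + Real.log ((8 * n : ℕ) : ℝ) := by
      rw [← Real.log_mul (by norm_num) (by positivity)]
      congr 1
      push_cast
      ring
    have e3 : Real.log 2 ≤ Real.log ((8 * n : ℕ) : ℝ) := by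
      apply Real.log_le_log (by norm_num)
      have : (2 : ℕ) ≤ 8 * n := by omega
      exact_mod_cast this
    rw [e2]
    linarith
  have hf : (0 : ℝ) ≤ f (8 * n) := Nat.cast_nonneg _
  have e4 : √(Real.log ((16 * n : ℕ) : ℝ)) * (f (8 * n) : ℝ) / ((16 * n : ℕ) : ℝ)
      ≤ 3 / 4 * (√(Real.log ((8 * n : ℕ) : ℝ)) * (f (8 * n) : ℝ) / ((8 * n : ℕ) : ℝ)) := by
    have e5 : 3 / 4 * (√(Real.log ((8 * n : ℕ) : ℝ)) * (f (8 * n) : ℝ) / ((8 * n : ℕ) : ℝ))
        = (3 / 2 * √(Real.log ((8 * n : ℕ) : ℝ))) * (f (8 * n) : ℝ) / ((16 * n : ℕ) : ℝ) := by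
      push_cast
      field_simp
      ring
    rw [e5]
    gcongr
  linarith

end det

section prob

variable {Ω : Type*} [MeasurableSpace Ω] {P : Measure Ω}

/-- the event that the random set has no element in `(n, 16 n]` -/
def gap (A : ℕ → Set Ω) (n : ℕ) : Set Ω := ⋂ j ∈ Finset.Ioc n (16 * n), (A j)ᶜ

lemma gap_meas {A : ℕ → Set Ω} (hmeas : ∀ i, MeasurableSet (A i)) (n : ℕ) :
    MeasurableSet (gap A n) :=
  Finset.measurableSet_biInter _ fun j _ => (hmeas j).compl

lemma meas_gap {A : ℕ → Set Ω} (hind : iIndepSet A P) (n : ℕ) :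
    P (gap A n) = ∏ j ∈ Finset.Ioc n (16 * n), P (A j)ᶜ := by
  unfold gap
  apply (iIndepSet_iff_iIndep _ _ |>.1 hind).meas_biInter
  intro i _
  exact (MeasurableSpace.measurableSet_generateFrom (Set.mem_singleton _)).compl

lemma meas_inter_gap {A : ℕ → Set Ω} (hind : iIndepSet A P) {i n : ℕ} (hi : i ≤ n) :
    P (A i ∩ gap A n) = P (A i) * P (gap A n) := by
  classical
  rw [meas_gap hind]
  have hni : i ∉ Finset.Ioc n (16 * n) := by rw [Finset.mem_Ioc]; omega
  have h1 := (iIndepSet_iff_iIndep _ _ |>.1 hind).meas_biInter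
    (S := insert i (Finset.Ioc n (16 * n))) (s := fun j => if j = i then A i else (A j)ᶜ) (by
      intro j _
      by_cases hj : j = i
      · subst hj
        simp only [if_true]
        exact MeasurableSpace.measurableSet_generateFrom (Set.mem_singleton _)
      · simp only [hj, if_false]
        exact (MeasurableSpace.measurableSet_generateFrom (Set.mem_singleton _)).compl)
  rw [Finset.prod_insert hni, Finset.set_biInter_insert] at h1
  have h2 : (⋂ x ∈ Finset.Ioc n (16 * n), if x = i then A i else (A x)ᶜ) = gap A n := by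
    unfold gap
    apply Set.iInter_congr
    intro j
    apply Set.iInter_congr
    intro hj
    rw [if_neg (fun h : j = i => hni (h ▸ hj))]
  have h3 : ∏ x ∈ Finset.Ioc n (16 * n), P (if x = i then A i else (A x)ᶜ)
      = ∏ j ∈ Finset.Ioc n (16 * n), P (A j)ᶜ := by
    apply Finset.prod_congr rfl
    intro j hj
    rw [if_neg (fun h : j = i => hni (h ▸ hj))]
  rw [h2, h3] at h1
  simpa using h1

lemma log_two_ge : (1 / 2 : ℝ) ≤ Real.log 2 := by linarith [Real.log_two_gt_d9]

lemma telescope (n : ℕ) (hn : 2 ≤ n) (m : ℕ) :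
    ∏ j ∈ Finset.Ioc n (n + m), (1 - 2 / (j : ℝ)) = (n * (n - 1) : ℝ) / ((n + m) * (n + m - 1)) := by
  have hn' : (2 : ℝ) ≤ n := by exact_mod_cast hn
  induction m with
  | zero =>
    simp
    rw [div_self]
    have : (0 : ℝ) < n * (n - 1) := by nlinarith
    exact this.ne'
  | succ m ih =>
    have hm : (0 : ℝ) ≤ m := Nat.cast_nonneg _
    rw [← add_assoc, Finset.prod_Ioc_succ_top (by omega), ih]
    push_cast
    have h1 : ((n : ℝ) + m) ≠ 0 := by positivity
    have h2 : ((n : ℝ) + m - 1) ≠ 0 := by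
      have : (0 : ℝ) < (n : ℝ) + m - 1 := by linarith
      exact this.ne'
    have h3 : ((n : ℝ) + m + 1) ≠ 0 := by positivity
    have h4 : ((n : ℝ) + (m + 1) - 1) ≠ 0 := by
      have : (0 : ℝ) < (n : ℝ) + (m + 1) - 1 := by linarith
      exact this.ne'
    have h5 : ((n : ℝ) + (m + 1)) ≠ 0 := by positivity
    field_simp
    ring

lemma gap_lower {A : ℕ → Set Ω} (hmeas : ∀ i, MeasurableSet (A i)) (hind : iIndepSet A P)
    (hA : ∀ i, 1 ≤ i → P (A i) = ENNReal.ofReal (min 1 (1 / (i * Real.log 2)))) {n : ℕ}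
    (hn : 2 ≤ n) : ENNReal.ofReal (1 / 512) ≤ P (gap A n) := by
  have hP := hind.isProbabilityMeasure
  rw [meas_gap hind]
  have h1 : ∀ j ∈ Finset.Ioc n (16 * n), ENNReal.ofReal (1 - 2 / (j : ℝ)) ≤ P (A j)ᶜ := by
    intro j hj
    rw [Finset.mem_Ioc] at hj
    have hj0 : (0 : ℝ) < j := by
      have : 0 < j := by omega
      exact_mod_cast this
    rw [prob_compl_eq_one_sub (hmeas j), hA j (by omega), ← ENNReal.ofReal_one,
      ← ENNReal.ofReal_sub _ (by
        have := log_two_ge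
        have : (0 : ℝ) ≤ 1 / (j * Real.log 2) := by positivity
        exact le_min zero_le_one this)]
    apply ENNReal.ofReal_le_ofReal
    have h2 : min 1 (1 / (j * Real.log 2)) ≤ 2 / (j : ℝ) := by
      refine (min_le_right _ _).trans ?_
      rw [div_le_div_iff₀ (by have := log_two_ge; positivity) hj0]
      nlinarith [log_two_ge]
    linarith
  refine le_trans ?_ (Finset.prod_le_prod' h1)
  rw [← ENNReal.ofReal_prod_of_nonneg]
  · apply ENNReal.ofReal_le_ofReal
    have h16 : 16 * n = n + 15 * n := by ring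
    rw [h16, telescope n hn (15 * n)]
    have hn' : (2 : ℝ) ≤ n := by exact_mod_cast hn
    push_cast
    rw [div_le_div_iff₀ (by norm_num) (by nlinarith)]
    nlinarith
  · intro j hj
    rw [Finset.mem_Ioc] at hj
    have hj0 : (2 : ℝ) ≤ j := by
      have : 2 ≤ j := by omega
      exact_mod_cast this
    have : 2 / (j : ℝ) ≤ 1 := by
      rw [div_le_one (by linarith)]; exact hj0
    linarith

/-- the sum of the elements of the random set up to `n` -/
noncomputable def ssum (A : ℕ → Set Ω) (n : ℕ) (ω : Ω) : ℝ≥0∞ :=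
  ∑ i ∈ Finset.Icc 1 n, (A i).indicator (fun _ => (i : ℝ≥0∞)) ω

lemma ssum_meas {A : ℕ → Set Ω} (hmeas : ∀ i, MeasurableSet (A i)) (n : ℕ) :
    Measurable (ssum A n) := by
  unfold ssum
  apply Finset.measurable_sum
  intro i _
  exact measurable_const.indicator (hmeas i)

/-- the good event -/
def ev (A : ℕ → Set Ω) (n : ℕ) : Set Ω := gap A n ∩ {ω | ssum A n ω < 8 * n}

lemma ev_meas {A : ℕ → Set Ω} (hmeas : ∀ i, MeasurableSet (A i)) (n : ℕ) :
    MeasurableSet (ev A n) :=
  (gap_meas hmeas n).inter (measurableSet_lt (ssum_meas hmeas n) measurable_const)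

lemma ev_lower {A : ℕ → Set Ω} (hmeas : ∀ i, MeasurableSet (A i)) (hind : iIndepSet A P)
    (hA : ∀ i, 1 ≤ i → P (A i) = ENNReal.ofReal (min 1 (1 / (i * Real.log 2)))) {n : ℕ}
    (hn : 2 ≤ n) : ENNReal.ofReal (1 / 1024) ≤ P (ev A n) := by
  have hP := hind.isProbabilityMeasure
  have h1 : ∫⁻ ω in gap A n, ssum A n ω ∂P ≤ 2 * n * P (gap A n) := by
    unfold ssum
    rw [lintegral_finsetSum _ (fun i _ => measurable_const.indicator (hmeas i))]
    have h2 : ∀ i ∈ Finset.Icc 1 n,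
        ∫⁻ ω in gap A n, (A i).indicator (fun _ => (i : ℝ≥0∞)) ω ∂P ≤ 2 * P (gap A n) := by
      intro i hi
      rw [Finset.mem_Icc] at hi
      rw [lintegral_indicator (hmeas i), setLIntegral_const,
        Measure.restrict_apply (hmeas i), meas_inter_gap hind hi.2, hA i hi.1, ← mul_assoc]
      gcongr
      rw [← ENNReal.ofReal_natCast, ← ENNReal.ofReal_mul (Nat.cast_nonneg _)]
      have h3 : (i : ℝ) * min 1 (1 / (i * Real.log 2)) ≤ 2 := by
        have hi0 : (0 : ℝ) < i := by exact_mod_cast hi.1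
        calc (i : ℝ) * min 1 (1 / (i * Real.log 2)) ≤ i * (1 / (i * Real.log 2)) := by
              gcongr; exact min_le_right _ _
          _ = 1 / Real.log 2 := by field_simp
          _ ≤ 2 := by
              rw [div_le_iff₀ (by linarith [log_two_ge])]
              linarith [log_two_ge]
      calc ENNReal.ofReal ((i : ℝ) * min 1 (1 / (i * Real.log 2))) ≤ ENNReal.ofReal 2 :=
            ENNReal.ofReal_le_ofReal h3
        _ = 2 := by simp
    refine (Finset.sum_le_sum h2).trans ?_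
    rw [Finset.sum_const, Nat.card_Icc, Nat.add_sub_cancel, nsmul_eq_mul]
    apply le_of_eq
    ring
  have h4 : (8 * n : ℝ≥0∞) * P (gap A n ∩ {ω | ssum A n ω < 8 * n}ᶜ) ≤ 2 * n * P (gap A n) := by
    refine le_trans ?_ h1
    have h5 := mul_meas_ge_le_lintegral₀ (μ := P.restrict (gap A n))
      (ssum_meas hmeas n).aemeasurable (8 * n)
    refine le_trans (le_of_eq ?_) h5
    congr 1
    rw [Measure.restrict_apply (measurableSet_le measurable_const (ssum_meas hmeas n)),
      Set.inter_comm]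
    congr 2
    ext ω
    simp
  have h6 : P (gap A n ∩ {ω | ssum A n ω < 8 * n}ᶜ) ≤ P (gap A n) / 4 := by
    have hn0 : (8 * n : ℝ≥0∞) ≠ 0 := by
      have : (n : ℝ≥0∞) ≠ 0 := by
        have : n ≠ 0 := by omega
        exact_mod_cast this
      exact mul_ne_zero (by norm_num) this
    have hnt : (8 * n : ℝ≥0∞) ≠ ⊤ := ENNReal.mul_ne_top (by norm_num) (ENNReal.natCast_ne_top n)
    rw [← ENNReal.mul_le_mul_iff_right hn0 hnt]
    refine h4.trans (le_of_eq ?_)
    rw [ENNReal.div_eq_inv_mul, ← mul_assoc]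
    congr 1
    have : (8 : ℝ≥0∞) * (n : ℝ≥0∞) * 4⁻¹ = (8 * 4⁻¹) * n := by ring
    rw [this]
    congr 1
    have h84 : (8 : ℝ≥0∞) = 2 * 4 := by norm_num
    rw [h84, mul_assoc, ENNReal.mul_inv_cancel (by norm_num) (by norm_num), mul_one]
  have h7 : P (gap A n) ≤ P (ev A n) + P (gap A n) / 4 := by
    calc P (gap A n) ≤ P (ev A n ∪ (gap A n ∩ {ω | ssum A n ω < 8 * n}ᶜ)) := by
          apply measure_mono
          intro ω hω
          by_cases h : ω ∈ {ω | ssum A n ω < 8 * n}
          · exact Or.inl ⟨hω, h⟩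
          · exact Or.inr ⟨hω, h⟩
      _ ≤ P (ev A n) + P (gap A n ∩ {ω | ssum A n ω < 8 * n}ᶜ) := measure_union_le _ _
      _ ≤ _ := by gcongr
  have h8 := gap_lower hmeas hind hA hn
  have hfin : P (gap A n) ≠ ⊤ := measure_ne_top _ _
  have hfin' : P (ev A n) ≠ ⊤ := measure_ne_top _ _
  rw [ENNReal.ofReal_le_iff_le_toReal hfin] at h8
  rw [ENNReal.ofReal_le_iff_le_toReal hfin']
  have h9 := ENNReal.toReal_mono (ENNReal.add_ne_top.2 ⟨hfin', ENNReal.div_ne_top hfin (by norm_num)⟩) h7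
  rw [ENNReal.toReal_add hfin' (ENNReal.div_ne_top hfin (by norm_num)), ENNReal.toReal_div] at h9
  norm_num at h9
  linarith

end prob

/-- With positive probability the normalised counting function has no finite positive limit: it is
not true that almost surely `√(log n) |Σ(A) ∩ [n]| / n` converges to a finite positive limit, even
if the limit is allowed to be random. -/
theorem result {Ω : Type*} [MeasurableSpace Ω] (P : Measure Ω) [IsProbabilityMeasure P]
    (A : ℕ → Set Ω) (hmeas : ∀ i, MeasurableSet (A i)) (hind : iIndepSet A P)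
    (hA : ∀ i, 1 ≤ i → P (A i) = ENNReal.ofReal (min 1 (1 / (i * Real.log 2)))) :
    ¬ ∀ᵐ ω ∂P, ∃ C : ℝ, 0 < C ∧
      Tendsto (fun n : ℕ => √(Real.log n) * (cnt (rset A ω) n : ℝ) / n) atTop (𝓝 C) := by
  intro hae
  -- the limsup event has positive probability
  set E : ℕ → Set Ω := fun N => ⋃ n ∈ Set.Ici N, ev A n with hE
  have hEm : ∀ N, MeasurableSet (E N) := fun N =>
    MeasurableSet.biUnion (Set.to_countable _) fun n _ => ev_meas hmeas n
  have hanti : Antitone E := by
    intro N M hNM ω hω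
    simp only [hE, Set.mem_iUnion] at hω ⊢
    obtain ⟨n, hn, hω⟩ := hω
    exact ⟨n, le_trans hNM hn, hω⟩
  have hlow : ENNReal.ofReal (1 / 1024) ≤ P (⋂ N, E N) := by
    have h1 := tendsto_measure_iInter_atTop (μ := P) (fun N => (hEm N).nullMeasurableSet) hanti
      ⟨0, measure_ne_top _ _⟩
    refine ge_of_tendsto h1 ?_
    filter_upwards [eventually_ge_atTop 2] with N hN
    refine (ev_lower hmeas hind hA hN).trans (measure_mono ?_)
    intro ω hω
    simp only [hE, Set.mem_iUnion]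
    exact ⟨N, le_refl N, hω⟩
  have hpos : P (⋂ N, E N) ≠ 0 := by
    intro h0
    rw [h0] at hlow
    simp at hlow
  obtain ⟨ω, hω1, hω2⟩ : ∃ ω, ω ∈ (⋂ N, E N) ∧ ∃ C : ℝ, 0 < C ∧
      Tendsto (fun n : ℕ => √(Real.log n) * (cnt (rset A ω) n : ℝ) / n) atTop (𝓝 C) := by
    by_contra hcon
    push Not at hcon
    apply hpos
    apply measure_mono_null _ hae
    intro ω hω hex
    obtain ⟨C, hC, hC'⟩ := hex
    exact hcon ω hω C hC hC'
  obtain ⟨C, hC, hlim⟩ := hω2
  refine no_limit (f := cnt (rset A ω)) ?_ C hC hlim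
  rw [frequently_atTop]
  intro N
  have h1 := Set.mem_iInter.1 hω1 N
  simp only [hE, Set.mem_iUnion] at h1
  obtain ⟨n, hn, hgap, hsum⟩ := h1
  refine ⟨n, hn, ?_⟩
  classical
  refine cnt_eq (B := rset A ω) ?_ ((Finset.Icc 1 n).filter (fun i => ω ∈ A i)) ?_ ?_
  · intro j hj hB
    unfold gap at hgap
    exact (Set.mem_iInter₂.1 hgap j hj) hB.2
  · intro j hj hjn
    exact Finset.mem_filter.2 ⟨Finset.mem_Icc.2 ⟨hj.1, hjn⟩, hj.2⟩
  · have h2 : ssum A n ω = ((∑ a ∈ (Finset.Icc 1 n).filter (fun i => ω ∈ A i), a : ℕ) : ℝ≥0∞) := by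
      unfold ssum
      rw [Finset.sum_filter]
      push_cast
      refine Finset.sum_congr rfl fun i _ => ?_
      by_cases h : ω ∈ A i
      · rw [Set.indicator_of_mem h, if_pos h]
      · rw [Set.indicator_of_notMem h, if_neg h]
    have h3 : ssum A n ω < 8 * n := hsum
    rw [h2] at h3
    have h4 : ((∑ a ∈ (Finset.Icc 1 n).filter (fun i => ω ∈ A i), a : ℕ) : ℝ≥0∞)
        < ((8 * n : ℕ) : ℝ≥0∞) := by
      push_cast at h3 ⊢
      exact h3
    exact (Nat.cast_lt.1 h4).le

end Pool.Agent.Results.MP_78f804_pr.NoSharpDensity
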